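import Pool.Agent.Y838.EA.Transfer

set_option autoImplicit false

/-!
# The rank condition of the `p`-adic part passes to extensions
-/

namespace Pool.Agent.Y838.EA

open Pool.Agent.H440R3 Topology
open scoped TensorProduct

section rank

variable (p : ℕ) [Fact p.Prime] {K L : Type} [Field K] [NumberField K] [Field L] [NumberField L]
  (f : K →ₐ[ℚ] L)

open Classical in
/-- Restriction of characters to the subtorus. -/
noncomputable def res : (Emb p L → ℤ) →ₗ[ℤ] (Emb p K → ℤ) where
  toFun χ σ := ∑ τ : Emb p L with τ.comp f = σ, χ τ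
  map_add' χ ψ := by
    funext σ
    simp only [Pi.add_apply, Finset.sum_add_distrib]
  map_smul' c χ := by
    funext σ
    simp only [Pi.smul_apply, smul_eq_mul, RingHom.id_apply, Finset.mul_sum]

theorem prod_zpow_sum {ι G : Type} [CommGroup G] (s : Finset ι) (g : G) (χ : ι → ℤ) :
    ∏ i ∈ s, g ^ χ i = g ^ (∑ i ∈ s, χ i) := by
  classical
  induction s using Finset.induction_on with
  | empty => simp
  | insert a s ha ih => rw [Finset.prod_insert ha, Finset.sum_insert ha, ih, zpow_add]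

/-- Rank and nullity over `ℤ`. -/
theorem rank_nullity {M M' : Type} [AddCommGroup M] [AddCommGroup M'] [Module.Finite ℤ M]
    (r : M →ₗ[ℤ] M') : Module.finrank ℤ (LinearMap.range r) +
      Module.finrank ℤ (LinearMap.ker r) = Module.finrank ℤ M := by
  rw [← r.quotKerEquivRange.finrank_eq]
  exact Submodule.finrank_quotient_add_finrank _

theorem charValue_jj (χ : Emb p L → ℤ) (x : Kˣ) :
    charValue p L χ (jj f x) = charValue p K (res p f χ) x := by
  classical
  unfold charValue
  rw [← Finset.prod_fiberwise (s := (Finset.univ : Finset (Emb p L)))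
    (g := fun τ : Emb p L => (τ.comp f : Emb p K))]
  refine Finset.prod_congr rfl fun σ _ => ?_
  show _ = _ ^ (∑ τ : Emb p L with τ.comp f = σ, χ τ)
  rw [← prod_zpow_sum]
  refine Finset.prod_congr rfl fun τ hτ => ?_
  have h := (Finset.mem_filter.mp hτ).2
  congr 1
  apply Units.ext
  rw [← h]
  rfl

theorem exists_ext (σ : Emb p K) : ∃ τ : Emb p L, τ.comp f = σ := by
  let _ : Algebra K L := (f : K →+* L).toAlgebra
  have _ : IsScalarTower ℚ K L := IsScalarTower.of_algebraMap_eq fun x => (f.commutes x).symm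
  have _ : Algebra.IsAlgebraic K L := Algebra.IsAlgebraic.tower_top (K := ℚ) K
  obtain ⟨τ, hτ⟩ := IsAlgClosed.surjective_domRestrict_of_isAlgebraic
    (K := ℚ) (M := AlgebraicClosure ℚ_[p]) (L := K) (E := L) σ
  refine ⟨τ, ?_⟩
  ext x
  have := congrArg (fun φ : K →ₐ[ℚ] AlgebraicClosure ℚ_[p] => φ x) hτ
  exact this

theorem res_surjective : Function.Surjective (res p f) := by
  classical
  intro ψ
  choose τ hτ using exists_ext p f
  refine ⟨fun t => if t = τ (t.comp f) then ψ (t.comp f) else 0, ?_⟩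
  funext σ
  show (∑ t : Emb p L with t.comp f = σ, if t = τ (t.comp f) then ψ (t.comp f) else 0) = ψ σ
  rw [Finset.sum_eq_single (τ σ)]
  · rw [hτ σ, if_pos rfl]
  · intro t ht hne
    have h := (Finset.mem_filter.mp ht).2
    rw [if_neg]
    rw [h]
    exact hne
  · intro h
    exact absurd (Finset.mem_filter.mpr ⟨Finset.mem_univ (τ σ), hτ σ⟩) h

theorem finrank_emb (K : Type) [Field K] [NumberField K] :
    Module.finrank ℤ (Emb p K → ℤ) = Module.finrank ℚ K := by
  rw [Module.finrank_fintype_fun_eq_card]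
  exact AlgHom.card ℚ K (AlgebraicClosure ℚ_[p])

theorem finrank_le (Ψ : AddSubgroup (Emb p L → ℤ)) :
    Module.finrank ℤ Ψ + Module.finrank ℚ K ≤
      Module.finrank ℤ (Ψ.map (res p f).toAddMonoidHom) + Module.finrank ℚ L := by
  set r : (Emb p L → ℤ) →ₗ[ℤ] (Emb p K → ℤ) := res p f with hr
  set S : Submodule ℤ (Emb p L → ℤ) := AddSubgroup.toIntSubmodule Ψ with hS
  have h1 := rank_nullity r
  rw [LinearMap.range_eq_top.mpr (res_surjective p f), finrank_top, finrank_emb, finrank_emb] at h1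
  have h2 := rank_nullity (r.domRestrict S)
  have h3 : Module.finrank ℤ (LinearMap.ker (r.domRestrict S)) ≤
      Module.finrank ℤ (LinearMap.ker r) := by
    have hmem : ∀ x : LinearMap.ker (r.domRestrict S), ((x : S) : Emb p L → ℤ) ∈
        LinearMap.ker r := fun x => x.2
    let g : LinearMap.ker (r.domRestrict S) →ₗ[ℤ] LinearMap.ker r :=
      { toFun := fun x => ⟨((x : S) : Emb p L → ℤ), hmem x⟩
        map_add' := fun _ _ => rfl
        map_smul' := fun _ _ => rfl }
    apply LinearMap.finrank_le_finrank_of_injective (f := g)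
    intro x y hxy
    apply Subtype.ext
    apply Subtype.ext
    exact congrArg (fun z : LinearMap.ker r => (z : Emb p L → ℤ)) hxy
  have h4 : Module.finrank ℤ (LinearMap.range (r.domRestrict S)) =
      Module.finrank ℤ (Ψ.map r.toAddMonoidHom) := by
    rw [LinearMap.range_domRestrict]
    rfl
  have h5 : Module.finrank ℤ S = Module.finrank ℤ Ψ := rfl
  rw [h4, h5] at h2
  omega

theorem mem_ratPoints_jj (Ψ : AddSubgroup (Emb p L → ℤ)) (x : Kˣ) :
    jj f x ∈ ratPoints p L Ψ ↔ x ∈ ratPoints p K (Ψ.map (res p f).toAddMonoidHom) := by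
  constructor
  · intro h χ hχ
    obtain ⟨ψ, hψ, rfl⟩ := AddSubgroup.mem_map.mp hχ
    have := h ψ hψ
    rw [charValue_jj] at this
    exact this
  · intro h ψ hψ
    rw [charValue_jj]
    exact h _ (AddSubgroup.mem_map.mpr ⟨ψ, hψ, rfl⟩)

theorem inf_map (Λ : Subgroup Kˣ) (Ψ : AddSubgroup (Emb p L → ℤ)) :
    Λ.map (jj f) ⊓ ratPoints p L Ψ =
      (Λ ⊓ ratPoints p K (Ψ.map (res p f).toAddMonoidHom)).map (jj f) := by
  ext y
  constructor
  · rintro ⟨⟨x, hx, rfl⟩, hy⟩
    exact ⟨x, ⟨hx, (mem_ratPoints_jj p f Ψ x).mp hy⟩, rfl⟩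
  · rintro ⟨x, ⟨hx, hx'⟩, rfl⟩
    exact ⟨⟨x, hx, rfl⟩, (mem_ratPoints_jj p f Ψ x).mpr hx'⟩

theorem rk_congr {G G' : Type} [CommGroup G] [CommGroup G'] (e : G ≃* G') : rk G = rk G' := by
  unfold rk
  exact LinearEquiv.finrank_eq (MulEquiv.toAdditive e).toIntLinearEquiv

theorem rk_map (Λ : Subgroup Kˣ) : rk ↥(Λ.map (jj f)) = rk ↥Λ :=
  (rk_congr (Λ.equivMapOfInjective (jj f) (jj_injective f))).symm

theorem comm_map {ℓ : ℕ} {C : Subgroup (QpPoints p K)}
    (h : CommensurableZp p L ℓ (C.map (UU p f))) : CommensurableZp p K ℓ C := by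
  obtain ⟨H, Z, hH, hZ, ⟨φ⟩⟩ := h
  let e : C ≃* C.map (UU p f) := C.equivMapOfInjective (UU p f) (UU_injective p f)
  refine ⟨H.comap e.toMonoidHom, Z, ?_, hZ, ⟨?_⟩⟩
  · constructor
    rw [Subgroup.index_comap_of_surjective H (f := e.toMonoidHom) e.surjective]
    exact hH.index_ne_zero
  · have e2 : ↥(H.comap e.toMonoidHom) ≃* ↥H :=
      e.subgroupMap (H.comap e.toMonoidHom) |>.trans
        (MulEquiv.subgroupCongr (Subgroup.map_comap_eq_self_of_surjective e.surjective H))
    exact e2.trans φ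

/-- The `p`-adic part of the expected answer passes to subfields. -/
theorem padicPart_of_ext (f : K →ₐ[ℚ] L) (h : PadicPart p L) : PadicPart p K := by
  intro Λ hΛ hc hr C hC
  apply comm_map p f
  have hfg : (Λ.map (jj f)).FG := by
    rw [Subgroup.fg_iff_submonoid_fg] at hΛ ⊢
    exact hΛ.map (jj f)
  have h1 := h (Λ.map (jj f)) hfg ?_ ?_ (C.map (UU p f)) (isMaxCompact_map p f hC)
  · rw [rk_map] at h1
    exact h1
  · obtain ⟨C₀, hC₀, hle⟩ := hc
    refine ⟨C₀.map (UU p f), ?_, ?_⟩
    · rw [Subgroup.coe_map]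
      exact hC₀.image (UU_closedEmb p f).continuous
    · rw [map_incl]
      exact Subgroup.map_mono hle
  · intro Ψ
    have h2 := hr (Ψ.map (res p f).toAddMonoidHom)
    have h3 := finrank_le p f Ψ
    have h4 : rk ↥(Λ.map (jj f) ⊓ ratPoints p L Ψ) =
        rk ↥(Λ ⊓ ratPoints p K (Ψ.map (res p f).toAddMonoidHom)) := by
      rw [inf_map]
      exact rk_map f _
    rw [h4]
    omega

end rank

end Pool.Agent.Y838.EA
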