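import Mathlib
import Pool.Agent.H440R3.Topo

set_option autoImplicit false

/-!
# The `p`-adic part of the expected answer passes to subfields
-/

namespace Pool.Agent.Y838.EA

open Pool.Agent.H440R3 Topology
open scoped TensorProduct

section top

variable (p : ℕ) [Fact p.Prime] {K L : Type} [Field K] [NumberField K] [Field L] [NumberField L]
  (f : K →ₐ[ℚ] L)

/-- The map `ℚ_p ⊗ K → ℚ_p ⊗ L`. -/
noncomputable def JJ : Kp p K →ₐ[ℚ_[p]] Kp p L :=
  Algebra.TensorProduct.map (AlgHom.id ℚ_[p] ℚ_[p]) f

theorem JJ_tmul (a : ℚ_[p]) (x : K) : JJ p f (a ⊗ₜ x) = a ⊗ₜ f x := by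
  simp [JJ]

theorem exists_inv : ∃ g : L →ₗ[ℚ] K, ∀ x, g (f x) = x := by
  obtain ⟨g, hg⟩ := f.toLinearMap.exists_leftInverse_of_injective
    (LinearMap.ker_eq_bot.mpr (f : K →+* L).injective)
  exact ⟨g, fun x => by simpa using LinearMap.congr_fun hg x⟩

theorem JJ_closedEmb : IsClosedEmbedding (JJ p f) := by
  obtain ⟨g, hg⟩ := exists_inv f
  have hc : Continuous (JJ p f) :=
    IsModuleTopology.continuous_of_linearMap (JJ p f).toLinearMap
  have hG : Continuous (g.baseChange ℚ_[p] : Kp p L →ₗ[ℚ_[p]] Kp p K) :=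
    IsModuleTopology.continuous_of_linearMap _
  have hli : Function.LeftInverse (g.baseChange ℚ_[p] : Kp p L →ₗ[ℚ_[p]] Kp p K) (JJ p f) := by
    intro x
    induction x using TensorProduct.induction_on with
    | zero => simp
    | tmul a x => rw [JJ_tmul, LinearMap.baseChange_tmul, hg]
    | add x y hx hy => rw [map_add, map_add, hx, hy]
  exact hli.isClosedEmbedding hG hc

/-- The map on points. -/
noncomputable def UU : QpPoints p K →* QpPoints p L := Units.map (JJ p f : Kp p K →* Kp p L)

theorem UU_coe (u : QpPoints p K) : ((UU p f u : QpPoints p L) : Kp p L) = JJ p f u := rfl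

theorem UU_inv_coe (u : QpPoints p K) : (((UU p f u)⁻¹ : QpPoints p L) : Kp p L) =
    JJ p f (u⁻¹ : QpPoints p K) := by
  rw [← map_inv]
  rfl

theorem UU_injective : Function.Injective (UU p f) := by
  intro u v h
  apply Units.ext
  apply (JJ_closedEmb p f).injective
  rw [← UU_coe, ← UU_coe, h]

theorem UU_closedEmb : IsClosedEmbedding (UU p f) := by
  have hJ := JJ_closedEmb p f
  have hval : Continuous fun u : QpPoints p L => (u : Kp p L) := Units.continuous_val
  have hcont : Continuous (UU p f) := by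
    rw [Units.continuous_iff]
    constructor
    · exact hJ.continuous.comp Units.continuous_val
    · have : (fun u : QpPoints p K => (((UU p f u)⁻¹ : QpPoints p L) : Kp p L)) =
          fun u : QpPoints p K => JJ p f (u⁻¹ : QpPoints p K) := funext (UU_inv_coe p f)
      rw [this]
      exact hJ.continuous.comp (Units.continuous_val.comp continuous_inv)
  have hemb : IsEmbedding (UU p f) := by
    have hE : IsEmbedding fun u : QpPoints p K =>
        ((JJ p f (u : Kp p K), MulOpposite.op (JJ p f ((u⁻¹ : QpPoints p K) : Kp p K))) :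
          Kp p L × (Kp p L)ᵐᵒᵖ) := by
      have h1 : IsEmbedding (Prod.map (JJ p f) (fun x : (Kp p K)ᵐᵒᵖ =>
          MulOpposite.op (JJ p f (MulOpposite.unop x)))) := by
        refine IsEmbedding.prodMap hJ.isEmbedding ?_
        exact MulOpposite.opHomeomorph.isEmbedding.comp
          (hJ.isEmbedding.comp MulOpposite.opHomeomorph.symm.isEmbedding)
      exact h1.comp Units.isEmbedding_embedProduct
    exact IsEmbedding.of_comp hcont Units.continuous_embedProduct hE
  refine ⟨hemb, ?_⟩
  have hr : Set.range (UU p f) = {u : QpPoints p L | (u : Kp p L) ∈ Set.range (JJ p f)} ∩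
      {u : QpPoints p L | ((u⁻¹ : QpPoints p L) : Kp p L) ∈ Set.range (JJ p f)} := by
    ext u
    constructor
    · rintro ⟨v, rfl⟩
      exact ⟨⟨v, rfl⟩, ⟨_, (UU_inv_coe p f v).symm⟩⟩
    · rintro ⟨⟨a, ha⟩, ⟨b, hb⟩⟩
      have hab : a * b = 1 := by
        apply hJ.injective
        rw [map_mul, ha, hb, map_one, Units.mul_inv]
      have hba : b * a = 1 := by rw [mul_comm, hab]
      refine ⟨⟨a, b, hab, hba⟩, Units.ext ?_⟩
      exact ha
  rw [hr]
  refine IsClosed.inter ?_ ?_
  · exact hJ.isClosed_range.preimage Units.continuous_val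
  · exact hJ.isClosed_range.preimage (Units.continuous_val.comp continuous_inv)

/-- The map on rational points. -/
def jj : Kˣ →* Lˣ := Units.map (f : K →* L)

theorem incl_jj (x : Kˣ) : incl p L (jj f x) = UU p f (incl p K x) := by
  apply Units.ext
  show (1 : ℚ_[p]) ⊗ₜ[ℚ] f x = JJ p f (1 ⊗ₜ (x : K))
  rw [JJ_tmul]

theorem map_incl (Λ : Subgroup Kˣ) :
    (Λ.map (jj f)).map (incl p L) = (Λ.map (incl p K)).map (UU p f) := by
  rw [Subgroup.map_map, Subgroup.map_map]
  congr 1

theorem closureIn_map (Λ : Subgroup Kˣ) :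
    closureIn p L (Λ.map (jj f)) = (closureIn p K Λ).map (UU p f) := by
  apply SetLike.coe_injective
  have h := (UU_closedEmb p f).closure_image_eq
    (s := ((Λ.map (incl p K) : Subgroup (QpPoints p K)) : Set (QpPoints p K)))
  rw [← Subgroup.coe_map, ← map_incl] at h
  exact h

theorem isMaxCompact_map {Λ : Subgroup Kˣ} {C : Subgroup (QpPoints p K)}
    (h : IsMaxCompact p K (closureIn p K Λ) C) :
    IsMaxCompact p L (closureIn p L (Λ.map (jj f))) (C.map (UU p f)) := by
  obtain ⟨h1, h2, h3⟩ := h
  rw [closureIn_map]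
  refine ⟨Subgroup.map_mono h1, ?_, ?_⟩
  · rw [Subgroup.coe_map]
    exact h2.image (UU_closedEmb p f).continuous
  · intro D hD hDc
    have e : D = (D.comap (UU p f)).map (UU p f) := by
      rw [Subgroup.map_comap_eq]
      refine (inf_eq_right.mpr ?_).symm
      exact hD.trans (Subgroup.map_le_range _ _)
    rw [e]
    apply Subgroup.map_mono
    apply h3
    · intro x hx
      have h4 : UU p f x ∈ (closureIn p K Λ).map (UU p f) := hD hx
      obtain ⟨y, hy, hxy⟩ := Subgroup.mem_map.mp h4
      rw [← UU_injective p f hxy]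
      exact hy
    · exact (UU_closedEmb p f).isCompact_preimage hDc

theorem jj_injective : Function.Injective (jj f) := by
  intro u v h
  apply Units.ext
  apply (f : K →+* L).injective
  exact congrArg (fun w : Lˣ => (w : L)) h

end top

end Pool.Agent.Y838.EA
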